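import Mathlib

/-!
# Fixed vectors of commuting operators with an invariant functional
-/

set_option autoImplicit false

namespace Pool.Agent.Q294.SS

variable {K E Γ : Type*} [Field K] [AddCommGroup E] [Module K E] [FiniteDimensional K E] [Group Γ]

/-- `X` is stable under all `T g` -/
def TStab (T : Γ →* Module.End K E) (X : Submodule K E) : Prop := ∀ g, ∀ x ∈ X, T g x ∈ X

omit [FiniteDimensional K E] in
theorem nu_mem {T : Γ →* Module.End K E} {X : Submodule K E} (hX : TStab T X) (g : Γ) :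
    ∀ x ∈ X, (T g - 1) x ∈ X := by
  intro x hx
  rw [LinearMap.sub_apply, Module.End.one_apply]
  exact X.sub_mem (hX g x hx) hx

/-- a vector outside of `Z` which is fixed modulo `Z` -/
theorem exists_rel {T : Γ →* Module.End K E} {X Z : Submodule K E} (hX : TStab T X)
    (hZ : TStab T Z) (hZX : Z < X)
    (hcomm : ∀ g h, ∀ x ∈ X, T g (T h x) = T h (T g x))
    (hnil : ∀ g, ∃ n : ℕ, ∀ x ∈ X, ((T g - 1) ^ n) x = 0) :
    ∃ x ∈ X, x ∉ Z ∧ ∀ g, (T g - 1) x ∈ Z := by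
  let S : Set (Submodule K E) := {Y | TStab T Y ∧ Z < Y ∧ Y ≤ X}
  have hS : S.Nonempty := ⟨X, hX, hZX, le_refl _⟩
  obtain ⟨Y, ⟨hY1, hY2, hY3⟩, hmin⟩ := WellFounded.has_min
    (wellFounded_lt (α := Submodule K E)) S hS
  obtain ⟨x, hx, hxZ⟩ := SetLike.exists_of_lt hY2
  refine ⟨x, hY3 hx, hxZ, ?_⟩
  intro g
  let Y' : Submodule K E := Y.map (T g - 1) ⊔ Z
  have h1 : Y' ≤ Y := by
    refine sup_le ?_ hY2.le
    rintro _ ⟨y, hy, rfl⟩
    exact nu_mem hY1 g y hy
  have h2 : TStab T Y' := by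
    intro h y hy
    obtain ⟨a, ⟨b, hb, rfl⟩, z, hz, rfl⟩ := Submodule.mem_sup.1 hy
    rw [map_add]
    refine Submodule.mem_sup.2 ⟨_, ⟨T h b, hY1 h b hb, rfl⟩, T h z, hZ h z hz, ?_⟩
    rw [LinearMap.sub_apply, LinearMap.sub_apply, Module.End.one_apply, Module.End.one_apply,
      map_sub, hcomm g h b (hY3 hb)]
  by_cases h3 : Y' = Y
  · exfalso
    obtain ⟨n, hn⟩ := hnil g
    have h4 : ∀ m : ℕ, ∀ y ∈ Y, ∃ a ∈ Y, ∃ z ∈ Z, y = ((T g - 1) ^ m) a + z := by
      intro m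
      induction m with
      | zero =>
        intro y hy
        exact ⟨y, hy, 0, Z.zero_mem, by rw [pow_zero, Module.End.one_apply, add_zero]⟩
      | succ m ih =>
        intro y hy
        rw [← h3] at hy
        obtain ⟨_, ⟨b, hb, rfl⟩, z, hz, rfl⟩ := Submodule.mem_sup.1 hy
        obtain ⟨a, ha, z', hz', rfl⟩ := ih b hb
        refine ⟨a, ha, (T g - 1) z' + z, Z.add_mem (nu_mem hZ g z' hz') hz, ?_⟩
        rw [map_add, add_assoc, pow_succ', Module.End.mul_apply]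
    obtain ⟨a, ha, z, hz, hxa⟩ := h4 n x hx
    rw [hn a (hY3 ha), zero_add] at hxa
    rw [hxa] at hxZ
    exact hxZ hz
  · have h5 : Y' < Y := lt_of_le_of_ne h1 h3
    have h6 : ¬ Z < Y' := fun h6 => hmin Y' ⟨h2, h6, h1.trans hY3⟩ h5
    have h7 : Z = Y' := by
      by_contra h7
      exact h6 (lt_of_le_of_ne le_sup_right h7)
    rw [h7]
    exact Submodule.mem_sup_left ⟨x, hx, rfl⟩

/-- **Fixed vectors.** -/
theorem exists_fixed {T : Γ →* Module.End K E} {X : Submodule K E} (hX : TStab T X)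
    (hcomm : ∀ g h, ∀ x ∈ X, T g (T h x) = T h (T g x))
    (lam : E →ₗ[K] K) (hlam : ∀ g, ∀ x ∈ X, lam (T g x) = lam x) (hne : ∃ x ∈ X, lam x ≠ 0)
    (hhom : ∀ x ∈ X, (∀ g h, T g (T h x - x) = T h x - x) → ∀ g, T g x = x) :
    ∃ x ∈ X, lam x ≠ 0 ∧ ∀ g, T g x = x := by
  let S : Set (Submodule K E) := {Y | TStab T Y ∧ Y ≤ X ∧ ∃ y ∈ Y, lam y ≠ 0}
  have hS : S.Nonempty := ⟨X, hX, le_refl _, hne⟩
  obtain ⟨Y, ⟨hY1, hY2, y, hy, hyl⟩, hmin⟩ := WellFounded.has_min
    (wellFounded_lt (α := Submodule K E)) S hS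
  have hnil : ∀ g, ∃ n : ℕ, ∀ x ∈ Y, ((T g - 1) ^ n) x = 0 := by
    intro g
    let ν : Module.End K Y := (T g - 1).restrict (nu_mem hY1 g)
    have hν : ∀ (n : ℕ) (x : Y), (((ν ^ n) x : Y) : E) = ((T g - 1) ^ n) x := by
      intro n
      induction n with
      | zero => intro x; rw [pow_zero, pow_zero]; rfl
      | succ n ih =>
        intro x
        rw [pow_succ', pow_succ', Module.End.mul_apply, Module.End.mul_apply, ← ih x]
        rfl
    obtain ⟨n, hn1, hn2⟩ := (((LinearMap.eventually_isCompl_ker_pow_range_pow ν)).and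
      (Filter.eventually_ge_atTop 1)).exists
    refine ⟨n, ?_⟩
    let Y' : Submodule K E := (LinearMap.ker (ν ^ n)).map Y.subtype
    have h1 : Y' ≤ Y := by
      rintro _ ⟨a, _, rfl⟩
      exact a.2
    have hcommn : ∀ h, ∀ x ∈ Y, ∀ m : ℕ, ((T g - 1) ^ m) (T h x) = T h (((T g - 1) ^ m) x) := by
      intro h x hx m
      induction m with
      | zero => rw [pow_zero]; rfl
      | succ m ih =>
        have h2 : ((T g - 1) ^ m) x ∈ Y := by
          have := ((ν ^ m) ⟨x, hx⟩).2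
          rwa [hν m ⟨x, hx⟩] at this
        rw [pow_succ', Module.End.mul_apply, Module.End.mul_apply, ih, LinearMap.sub_apply,
          LinearMap.sub_apply, Module.End.one_apply, Module.End.one_apply, map_sub,
          hcomm g h _ (hY2 h2)]
    have h2 : TStab T Y' := by
      rintro h _ ⟨a, ha, rfl⟩
      refine ⟨⟨T h a, hY1 h a a.2⟩, ?_, rfl⟩
      have ha' : (ν ^ n) a = 0 := ha
      show (ν ^ n) ⟨T h a, hY1 h a a.2⟩ = 0
      apply Subtype.ext
      rw [hν n ⟨T h a, hY1 h a a.2⟩]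
      show ((T g - 1) ^ n) (T h a) = 0
      rw [hcommn h a a.2 n, ← hν n a, ha']
      exact map_zero _
    have h3 : ∃ y ∈ Y', lam y ≠ 0 := by
      have h4 : (⟨y, hy⟩ : Y) ∈ (LinearMap.ker (ν ^ n)) ⊔ (LinearMap.range (ν ^ n)) := by
        rw [hn1.sup_eq_top]; trivial
      obtain ⟨k, hk, r, ⟨z, rfl⟩, hkr⟩ := Submodule.mem_sup.1 h4
      refine ⟨k, ⟨k, hk, rfl⟩, ?_⟩
      obtain ⟨m, rfl⟩ : ∃ m, n = m + 1 := ⟨n - 1, by omega⟩
      have h5 : lam ((ν ^ (m + 1)) z : Y) = 0 := by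
        rw [pow_succ', Module.End.mul_apply]
        show lam ((T g - 1) ((ν ^ m) z : Y)) = 0
        rw [LinearMap.sub_apply, Module.End.one_apply, map_sub,
          hlam g _ (hY2 ((ν ^ m) z).2), sub_self]
      have h6 : y = (k : E) + (((ν ^ (m + 1)) z : Y) : E) := by
        have := congrArg Subtype.val hkr
        exact this.symm
      rw [h6, map_add, h5, add_zero] at hyl
      exact hyl
    have h4 : Y' = Y := by
      by_contra h4
      exact hmin Y' ⟨h2, h1.trans hY2, h3⟩ (lt_of_le_of_ne h1 h4)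
    intro x hx
    rw [← h4] at hx
    obtain ⟨a, ha, rfl⟩ := hx
    have ha' : (ν ^ n) a = 0 := ha
    show ((T g - 1) ^ n) (a : E) = 0
    rw [← hν n a, ha']
    rfl
  let Z : Submodule K E :=
    { carrier := {x | x ∈ Y ∧ ∀ g, T g x = x}
      add_mem' := fun ha hb => ⟨Y.add_mem ha.1 hb.1, fun g => by rw [map_add, ha.2, hb.2]⟩
      zero_mem' := ⟨Y.zero_mem, fun g => map_zero _⟩
      smul_mem' := fun c a ha => ⟨Y.smul_mem c ha.1, fun g => by rw [map_smul, ha.2]⟩ }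
  have hZ : TStab T Z := by
    intro g x hx
    rw [hx.2 g]
    exact hx
  have hZY : Z ≤ Y := fun x hx => hx.1
  by_cases h : Z = Y
  · rw [← h] at hy
    exact ⟨y, hY2 hy.1, hyl, hy.2⟩
  · exfalso
    obtain ⟨x, hx, hxZ, hx'⟩ := exists_rel hY1 hZ (lt_of_le_of_ne hZY h)
      (fun g h x hx => hcomm g h x (hY2 hx)) hnil
    refine hxZ ⟨hx, hhom x (hY2 hx) fun g h => ?_⟩
    have := (hx' h).2 g
    rwa [LinearMap.sub_apply, Module.End.one_apply] at this

end Pool.Agent.Q294.SS
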