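import Pool.Agent.Q294.SS.Grp
import Pool.Agent.Q294.SS.Fix

/-!
# Semisimplicity and abelian quotients
-/

set_option autoImplicit false

namespace Pool.Agent.Q294.SS

open Module

section span

variable {F V : Type*} [Field F] [CharZero F] [AddCommGroup V] [Module F V] [FiniteDimensional F V]
  {Γ : Type*} [Group Γ] (ρ : Γ →* End F V)

/-- subgroups whose quotient is abelian are normal -/
theorem normal_of {N : Subgroup Γ} (hab : ∀ g h : Γ, g * h * g⁻¹ * h⁻¹ ∈ N) {H : Subgroup Γ}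
    (h : N ≤ H) : H.Normal := by
  constructor
  intro n hn g
  have h1 := H.mul_mem (h (hab g n)) hn
  rwa [mul_assoc, inv_mul_cancel, mul_one] at h1

/-- the restriction of a representation to a subgroup containing a normal subgroup -/
theorem semi_sup {N D : Subgroup Γ} (hN' : N.Normal) (hN : SemiOn ρ N) (hD : SemiOn ρ D) :
    SemiOn ρ (D ⊔ N) := by
  let Γ' : Subgroup Γ := D ⊔ N
  let ρ' : Γ' →* End F V := ρ.comp Γ'.subtype
  let N' : Subgroup Γ' := N.subgroupOf Γ'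
  let D' : Subgroup Γ' := D.subgroupOf Γ'
  have h1 : N'.Normal := by
    constructor
    intro n hn g
    exact hN'.conj_mem _ hn _
  have h2 : D' ⊔ N' = ⊤ := by
    have h := Subgroup.subgroupOf_sup (G := Γ) (A := D) (A' := N) (B := Γ') le_sup_left
      le_sup_right
    show D.subgroupOf Γ' ⊔ N.subgroupOf Γ' = ⊤
    rw [← h]
    exact Subgroup.subgroupOf_self _
  have h3 : SemiOn ρ' N' := by
    intro W hW
    obtain ⟨W', h4, h5⟩ := hN W (fun g hg w hw =>
      hW ⟨g, (le_sup_right : N ≤ Γ') hg⟩ hg w hw)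
    exact ⟨W', h4, fun g hg w hw => h5 g hg w hw⟩
  have h3' : SemiOn ρ' D' := by
    intro W hW
    obtain ⟨W', h4, h5⟩ := hD W (fun g hg w hw =>
      hW ⟨g, (le_sup_left : D ≤ Γ') hg⟩ hg w hw)
    exact ⟨W', h4, fun g hg w hw => h5 g hg w hw⟩
  have h4 := semi_of_normal ρ' (by rw [h2]; infer_instance) h3 h3'
  intro W hW
  obtain ⟨W', h5, h6⟩ := h4 W (fun g _ w hw => hW g g.2 w hw)
  exact ⟨W', h5, fun g hg w hw => h6 ⟨g, hg⟩ trivial w hw⟩

/-- **Adding many semisimple subgroups.** -/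
theorem semi_iSup {N : Subgroup Γ} (hab : ∀ g h : Γ, g * h * g⁻¹ * h⁻¹ ∈ N) (hN : SemiOn ρ N)
    (𝒟 : Set (Subgroup Γ)) (hD : ∀ D ∈ 𝒟, SemiOn ρ D) : SemiOn ρ (N ⊔ sSup 𝒟) := by
  let S : Set (Subgroup Γ) := {H | N ≤ H ∧ H ≤ N ⊔ sSup 𝒟 ∧ SemiOn ρ H}
  let sp : Subgroup Γ → Submodule F (End F V) := fun H => Submodule.span F (ρ '' (H : Set Γ))
  have hS : (sp '' S).Nonempty := ⟨_, N, ⟨le_refl _, le_sup_left, hN⟩, rfl⟩
  obtain ⟨_, ⟨H, ⟨hH1, hH2, hH3⟩, rfl⟩, hmax⟩ := WellFounded.has_min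
    (wellFounded_gt (α := Submodule F (End F V))) _ hS
  have hkey : ∀ D ∈ 𝒟, ∀ d ∈ D, ρ d ∈ sp H := by
    intro D hDD d hd
    have h1 : SemiOn ρ (D ⊔ H) := semi_sup ρ (normal_of hab hH1) hH3 (hD D hDD)
    have h2 : D ⊔ H ∈ S :=
      ⟨hH1.trans le_sup_right, sup_le ((le_sSup hDD).trans le_sup_right) hH2, h1⟩
    have h3 : sp H ≤ sp (D ⊔ H) := Submodule.span_mono
      (Set.image_mono (SetLike.coe_subset_coe.2 le_sup_right))
    have h4 : sp H = sp (D ⊔ H) := by
      by_contra h4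
      exact hmax _ ⟨_, h2, rfl⟩ (lt_of_le_of_ne h3 h4)
    rw [h4]
    exact Submodule.subset_span ⟨d, (le_sup_left : D ≤ D ⊔ H) hd, rfl⟩
  intro W hW
  obtain ⟨W', h1, h2⟩ := hH3 W (fun g hg w hw => hW g (hH2 hg) w hw)
  refine ⟨W', h1, ?_⟩
  let St : Submodule F (End F V) :=
    { carrier := {a | ∀ w ∈ W', a w ∈ W'}
      add_mem' := fun ha hb w hw => W'.add_mem (ha w hw) (hb w hw)
      zero_mem' := fun w _ => W'.zero_mem
      smul_mem' := fun c a ha w hw => W'.smul_mem c (ha w hw) }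
  have h3 : sp H ≤ St := by
    rw [Submodule.span_le]
    rintro _ ⟨g, hg, rfl⟩ w hw
    exact h2 g hg w hw
  have h4 : ∀ D ∈ 𝒟, ∀ d ∈ D, ∀ w ∈ W', ρ d w ∈ W' := fun D hDD d hd w hw =>
    h3 (hkey D hDD d hd) w hw
  let Q : Subgroup Γ :=
    { carrier := {g | ∀ w ∈ W', ρ g w ∈ W' ∧ ρ g⁻¹ w ∈ W'}
      mul_mem' := by
        intro a b ha hb w hw
        rw [mul_inv_rev, map_mul, map_mul]
        exact ⟨(ha _ (hb w hw).1).1, (hb _ (ha w hw).2).2⟩
      one_mem' := by
        intro w hw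
        rw [inv_one, map_one]
        exact ⟨hw, hw⟩
      inv_mem' := by
        intro a ha w hw
        rw [inv_inv]
        exact ⟨(ha w hw).2, (ha w hw).1⟩ }
  have h5 : N ⊔ sSup 𝒟 ≤ Q := by
    refine sup_le ?_ (sSup_le ?_)
    · intro g hg w hw
      exact ⟨h2 g (hH1 hg) w hw, h2 _ (N.inv_mem hg |> fun h => hH1 h) w hw⟩
    · intro D hDD d hd w hw
      exact ⟨h4 D hDD d hd w hw, h4 D hDD _ (D.inv_mem hd) w hw⟩
  intro g hg w hw
  exact (h5 hg w hw).1

omit [FiniteDimensional F V] in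
/-- representations which are semisimple on a subgroup of finite index are semisimple -/
theorem semi_of_finiteIndex {H : Subgroup Γ} (hH : H.FiniteIndex) (h : SemiOn ρ H) :
    SemiOn ρ (⊤ : Subgroup Γ) := by
  intro W hW
  have hW' : ∀ g, ∀ w ∈ W, ρ g w ∈ W := fun g w hw => hW g trivial w hw
  obtain ⟨W₁, hc1, hs1⟩ := semiS_of ρ h W (by rintro _ ⟨n, hn, rfl⟩ w hw; exact hW' n w hw)
  obtain ⟨e, he1, he2, -, he4⟩ := exists_proj _ hc1
    (by rintro _ ⟨n, hn, rfl⟩ w hw; exact hW' n w hw) hs1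
  obtain ⟨q', h1, h2, h3⟩ := average ρ hW' he1 he2 (fun x hx => he4 _ ⟨x, hx, rfl⟩)
  refine ⟨LinearMap.ker q', compl_of h1 h2, fun g _ w hw => ?_⟩
  rw [LinearMap.mem_ker] at hw ⊢
  rw [← End.mul_apply, ← h3 g, End.mul_apply, hw, map_zero]

end span

section top

variable {K V : Type*} [NontriviallyNormedField K] [CharZero K] [AddCommGroup V] [Module K V]
  [FiniteDimensional K V]

omit [CharZero K] [FiniteDimensional K V] in
/-- expansion of an endomorphism -/
theorem expand {ι : Type*} [Fintype ι] [DecidableEq ι] (b : Basis ι K V) (A : End K V) :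
    A = ∑ i, ∑ j, (b.coord i (A (b j))) • ((b.coord j).smulRight (b i) : End K V) := by
  refine b.ext fun k => ?_
  simp only [LinearMap.sum_apply, LinearMap.smul_apply, LinearMap.smulRight_apply,
    Basis.coord_apply, Basis.repr_self]
  conv_lhs => rw [← b.sum_repr (A (b k))]
  refine Finset.sum_congr rfl fun i _ => ?_
  rw [Finset.sum_eq_single k]
  · rw [Finsupp.single_eq_same, one_smul]
  · intro j _ hj
    rw [Finsupp.single_eq_of_ne hj, zero_smul, smul_zero]
  · intro h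
    exact absurd (Finset.mem_univ _) h

omit [CharZero K] in
theorem cont_lin {Γ : Type*} [Group Γ] [TopologicalSpace Γ]
    (ρ : Γ →* End K V) (hcont : ∀ (φ : V →ₗ[K] K) (x : V), Continuous fun g => φ (ρ g x))
    (ψ : End K V →ₗ[K] K) : Continuous fun g => ψ (ρ g) := by
  classical
  let b := Module.finBasis K V
  have h1 : (fun g => ψ (ρ g)) = fun g => ∑ i, ∑ j,
      (b.coord i (ρ g (b j))) * ψ ((b.coord j).smulRight (b i) : End K V) := by
    ext g
    conv_lhs => rw [expand b (ρ g)]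
    simp only [map_sum, map_smul, smul_eq_mul]
  rw [h1]
  exact continuous_finsetSum _ fun i _ => continuous_finsetSum _ fun j _ =>
    Continuous.mul (hcont _ _) continuous_const

omit [CharZero K] in
/-- continuity of the conjugation action -/
theorem cont_conj {Γ : Type*} [Group Γ] [TopologicalSpace Γ] [IsTopologicalGroup Γ]
    (ρ : Γ →* End K V) (hcont : ∀ (φ : V →ₗ[K] K) (x : V), Continuous fun g => φ (ρ g x))
    (φ : End K V →ₗ[K] K) (x : End K V) : Continuous fun g => φ (ρ g * x * ρ g⁻¹) := by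
  classical
  let b := Module.finBasis K V
  let e : _ → _ → End K V := fun i j => ((b.coord j).smulRight (b i) : End K V)
  have h1 : (fun g => φ (ρ g * x * ρ g⁻¹)) = fun g => ∑ i, ∑ j,
      (b.coord i (ρ g (b j))) * (φ ∘ₗ LinearMap.mulLeft K (e i j * x)) (ρ g⁻¹) := by
    ext g
    have h2 : ρ g * x * ρ g⁻¹ = ∑ i, ∑ j, (b.coord i (ρ g (b j))) • (e i j * x * ρ g⁻¹) := by
      conv_lhs => rw [expand b (ρ g)]
      simp only [Finset.sum_mul, smul_mul_assoc]
      rfl
    rw [h2]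
    simp only [map_sum, map_smul, smul_eq_mul]
    rfl
  rw [h1]
  refine continuous_finsetSum _ fun i _ => continuous_finsetSum _ fun j _ => ?_
  exact Continuous.mul (hcont _ _) ((cont_lin ρ hcont _).comp continuous_inv)

omit [CharZero K] in
/-- **Semisimplicity and abelian quotients.**  If the restriction of `V` to a normal subgroup `N`
with abelian quotient is semisimple and no nonzero continuous homomorphism to `K` kills `N`, then
`V` is semisimple. -/
theorem semi_of_abelian {Γ : Type*} [Group Γ] [TopologicalSpace Γ] [IsTopologicalGroup Γ]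
    (ρ : Γ →* End K V) (hcont : ∀ (φ : V →ₗ[K] K) (x : V), Continuous fun g => φ (ρ g x))
    {N : Subgroup Γ} (hab : ∀ g h : Γ, g * h * g⁻¹ * h⁻¹ ∈ N) (hN : SemiOn ρ N)
    (hhom : ∀ f : Γ → K, Continuous f → (∀ g h, f (g * h) = f g + f h) → (∀ n ∈ N, f n = 0) →
      ∀ g, f g = 0) : SemiOn ρ (⊤ : Subgroup Γ) := by
  intro W hW
  have hW' : ∀ g, ∀ w ∈ W, ρ g w ∈ W := fun g w hw => hW g trivial w hw
  by_cases hW0 : W = ⊥
  · rw [hW0]
    exact ⟨⊤, isCompl_bot_top, fun _ _ _ _ => trivial⟩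
  obtain ⟨w₀, hw₀, hw₀'⟩ := Submodule.exists_mem_ne_zero_of_ne_bot hW0
  obtain ⟨φ₀, hφ₀⟩ : ∃ φ₀ : Module.Dual K V, φ₀ w₀ ≠ 0 := by
    by_contra h
    push Not at h
    exact hw₀' ((Module.forall_dual_apply_eq_zero_iff K w₀).1 h)
  have hNn : N.Normal := normal_of hab (le_refl _)
  let X : Submodule K (End K V) :=
    { carrier := {q | (∀ n ∈ N, ρ n * q = q * ρ n) ∧ (∀ v, q v ∈ W) ∧ ∃ c : K, ∀ w ∈ W, q w = c • w}
      add_mem' := by
        rintro a b ⟨ha1, ha2, c, ha3⟩ ⟨hb1, hb2, d, hb3⟩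
        refine ⟨fun n hn => by rw [mul_add, add_mul, ha1 n hn, hb1 n hn],
          fun v => W.add_mem (ha2 v) (hb2 v), c + d, fun w hw => ?_⟩
        rw [LinearMap.add_apply, ha3 w hw, hb3 w hw, add_smul]
      zero_mem' := ⟨fun n _ => by rw [mul_zero, zero_mul], fun v => W.zero_mem, 0,
        fun w _ => by rw [LinearMap.zero_apply, zero_smul]⟩
      smul_mem' := by
        rintro r a ⟨ha1, ha2, c, ha3⟩
        refine ⟨fun n hn => by rw [mul_smul_comm, smul_mul_assoc, ha1 n hn],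
          fun v => W.smul_mem r (ha2 v), r * c, fun w hw => ?_⟩
        rw [LinearMap.smul_apply, ha3 w hw, mul_smul] }
  let T : Γ →* End K (End K V) :=
    { toFun := fun g =>
        { toFun := fun q => ρ g * q * ρ g⁻¹
          map_add' := fun a b => by rw [mul_add, add_mul]
          map_smul' := fun r a => by rw [mul_smul_comm, smul_mul_assoc, RingHom.id_apply] }
      map_one' := by
        ext q : 1
        show ρ 1 * q * ρ 1⁻¹ = q
        rw [inv_one, map_one, one_mul, mul_one]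
      map_mul' := by
        intro g h
        ext q : 1
        show ρ (g * h) * q * ρ (g * h)⁻¹ = ρ g * (ρ h * q * ρ h⁻¹) * ρ g⁻¹
        rw [mul_inv_rev, map_mul, map_mul]
        simp only [mul_assoc] }
  have hT : ∀ g q, T g q = ρ g * q * ρ g⁻¹ := fun _ _ => rfl
  have hconjW : ∀ (g : Γ) (q : End K V) (c : K), (∀ w ∈ W, q w = c • w) →
      ∀ w ∈ W, (ρ g * q * ρ g⁻¹) w = c • w := by
    intro g q c hq w hw
    show ρ g (q (ρ g⁻¹ w)) = c • w
    rw [hq _ (hW' _ w hw), map_smul, ← End.mul_apply, mul_inv, End.one_apply]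
  have hX : TStab T X := by
    rintro g q ⟨h1, h2, c, h3⟩
    refine ⟨fun n hn => ?_, fun v => hW' _ _ (h2 _), c, hconjW g q c h3⟩
    rw [hT]
    have h4 : g⁻¹ * n * g ∈ N := by
      have := hNn.conj_mem n hn g⁻¹
      rwa [inv_inv] at this
    have h5 := h1 _ h4
    have h6 : ρ n * ρ g = ρ g * ρ (g⁻¹ * n * g) := by
      rw [← map_mul, ← map_mul]
      congr 1
      group
    have h7 : ρ (g⁻¹ * n * g) * ρ g⁻¹ = ρ g⁻¹ * ρ n := by
      rw [← map_mul, ← map_mul]
      congr 1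
      group
    calc ρ n * (ρ g * q * ρ g⁻¹) = (ρ n * ρ g) * q * ρ g⁻¹ := by simp only [mul_assoc]
      _ = ρ g * (ρ (g⁻¹ * n * g) * q) * ρ g⁻¹ := by rw [h6]; simp only [mul_assoc]
      _ = ρ g * q * (ρ (g⁻¹ * n * g) * ρ g⁻¹) := by rw [h5]; simp only [mul_assoc]
      _ = ρ g * q * ρ g⁻¹ * ρ n := by rw [h7]; simp only [mul_assoc]
  have hfixN : ∀ n ∈ N, ∀ q ∈ X, T n q = q := by
    intro n hn q hq
    rw [hT, hq.1 n hn, mul_assoc, mul_inv, mul_one]
  have hcomm : ∀ g h, ∀ x ∈ X, T g (T h x) = T h (T g x) := by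
    intro g h x hx
    have h1 : T g (T h x) = T (g * h) x := by rw [map_mul]; rfl
    have h2 : T h (T g x) = T (h * g) x := by rw [map_mul]; rfl
    have h3 : g * h = (g * h * g⁻¹ * h⁻¹) * (h * g) := by group
    rw [h1, h2, h3, map_mul]
    exact hfixN _ (hab g h) _ (hX _ _ hx)
  let lam : End K V →ₗ[K] K :=
    { toFun := fun q => φ₀ (q w₀)
      map_add' := fun a b => by rw [LinearMap.add_apply, map_add]
      map_smul' := fun r a => by rw [LinearMap.smul_apply, map_smul, RingHom.id_apply] }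
  have hlam0 : ∀ q, lam q = φ₀ (q w₀) := fun _ => rfl
  have hlam : ∀ g, ∀ x ∈ X, lam (T g x) = lam x := by
    rintro g x ⟨h1, h2, c, h3⟩
    rw [hlam0, hlam0, hT, hconjW g x c h3 w₀ hw₀, h3 w₀ hw₀]
  have hne : ∃ x ∈ X, lam x ≠ 0 := by
    obtain ⟨W₁, hc1, hs1⟩ := semiS_of ρ hN W (by rintro _ ⟨n, hn, rfl⟩ w hw; exact hW' n w hw)
    obtain ⟨e, he1, he2, he3, he4⟩ := exists_proj _ hc1
      (by rintro _ ⟨n, hn, rfl⟩ w hw; exact hW' n w hw) hs1
    refine ⟨e, ⟨fun n hn => he4 _ ⟨n, hn, rfl⟩, he1, 1, fun w hw => ?_⟩, ?_⟩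
    · rw [he2 w hw, one_smul]
    · rw [hlam0, he2 w₀ hw₀]
      exact hφ₀
  obtain ⟨x, ⟨-, hx2, c, hx3⟩, hx4, hx5⟩ := exists_fixed hX hcomm lam hlam hne (by
    intro x hx hfix g
    have h1 : ∀ φ : Module.Dual K (End K V), φ (T g x - x) = 0 := by
      intro φ
      refine hhom (fun g => φ (T g x - x)) ?_ ?_ ?_ g
      · have h2 : (fun g => φ (T g x - x)) = fun g => φ (ρ g * x * ρ g⁻¹) - φ x := by
          ext g
          rw [map_sub, hT]
        rw [h2]
        exact (cont_conj ρ hcont φ x).sub continuous_const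
      · intro g h
        have h2 : T (g * h) x = T g (T h x) := by rw [map_mul]; rfl
        have h3 : T (g * h) x - x = (T g x - x) + (T h x - x) := by
          have h4 := hfix g h
          rw [map_sub] at h4
          rw [h2]
          calc T g (T h x) - x = (T g (T h x) - T g x) + (T g x - x) := by abel
            _ = (T g x - x) + (T h x - x) := by rw [h4, add_comm]
        show φ (T (g * h) x - x) = _
        rw [h3, map_add]
      · intro n hn
        show φ (T n x - x) = 0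
        rw [hfixN n hn x hx, sub_self, map_zero]
    exact sub_eq_zero.1 ((Module.forall_dual_apply_eq_zero_iff K _).1 h1))
  have hc : c ≠ 0 := by
    rintro rfl
    rw [hlam0, hx3 w₀ hw₀, zero_smul, map_zero] at hx4
    exact hx4 rfl
  have h1 : ∀ v, (c⁻¹ • x) v ∈ W := fun v => W.smul_mem _ (hx2 v)
  have h2 : ∀ w ∈ W, (c⁻¹ • x) w = w := by
    intro w hw
    rw [LinearMap.smul_apply, hx3 w hw, smul_smul, inv_mul_cancel₀ hc, one_smul]
  refine ⟨LinearMap.ker (c⁻¹ • x), compl_of h1 h2, fun g _ w hw => ?_⟩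
  rw [LinearMap.mem_ker, LinearMap.smul_apply] at hw ⊢
  have h3 : x * ρ g = ρ g * x := by
    have h4 := hx5 g
    rw [hT] at h4
    calc x * ρ g = ρ g * x * ρ g⁻¹ * ρ g := by rw [h4]
      _ = ρ g * x := by rw [mul_assoc, inv_mul, mul_one]
  rw [← End.mul_apply, h3, End.mul_apply, ← map_smul, hw, map_zero]

/-- **Semisimplicity from a subgroup with abelian quotient and further subgroups.** -/
theorem semi_main {Γ : Type*} [Group Γ] [TopologicalSpace Γ] [IsTopologicalGroup Γ]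
    (ρ : Γ →* End K V) (hcont : ∀ (φ : V →ₗ[K] K) (x : V), Continuous fun g => φ (ρ g x))
    {N : Subgroup Γ} (hab : ∀ g h : Γ, g * h * g⁻¹ * h⁻¹ ∈ N) (hN : SemiOn ρ N)
    (𝒟 : Set (Subgroup Γ)) (hD : ∀ D ∈ 𝒟, SemiOn ρ D)
    (hhom : ∀ f : Γ → K, Continuous f → (∀ g h, f (g * h) = f g + f h) → (∀ n ∈ N, f n = 0) →
      (∀ D ∈ 𝒟, ∀ d ∈ D, f d = 0) → ∀ g, f g = 0) : SemiOn ρ (⊤ : Subgroup Γ) := by
  refine semi_of_abelian ρ hcont (N := N ⊔ sSup 𝒟)
    (fun g h => Subgroup.mem_sup_left (hab g h)) (semi_iSup ρ hab hN 𝒟 hD) ?_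
  intro f hf1 hf2 hf3
  exact hhom f hf1 hf2 (fun n hn => hf3 n (Subgroup.mem_sup_left hn))
    (fun D hDD d hd => hf3 d (Subgroup.mem_sup_right (Subgroup.mem_sSup_of_mem hDD hd)))

end top

end Pool.Agent.Q294.SS
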