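import Mathlib

/-!
# Semisimplicity from a normal subgroup and a second subgroup

The orthogonal projection, for the trace form, onto the commutant of a set of operators which acts
semisimply is equivariant under the normaliser of this set.
-/

set_option autoImplicit false

namespace Pool.Agent.Q294.SS

open Module

variable {F V : Type*} [Field F] [AddCommGroup V] [Module F V]

/-- `W` is stable under the operators in `S` -/
def Stab (S : Set (End F V)) (W : Submodule F V) : Prop := ∀ a ∈ S, ∀ w ∈ W, a w ∈ W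

/-- every subspace stable under the operators in `S` has a complement stable under `S` -/
def SemiS (S : Set (End F V)) : Prop :=
  ∀ W : Submodule F V, Stab S W → ∃ W' : Submodule F V, IsCompl W W' ∧ Stab S W'

theorem exists_proj (S : Set (End F V)) {W W' : Submodule F V} (h : IsCompl W W') (hW : Stab S W)
    (hW' : Stab S W') : ∃ e : End F V, (∀ v, e v ∈ W) ∧ (∀ w ∈ W, e w = w) ∧
      (∀ w ∈ W', e w = 0) ∧ ∀ a ∈ S, a * e = e * a := by
  classical
  have hex : ∀ v : V, ∃ x ∈ W, ∃ y ∈ W', x + y = v := by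
    intro v
    have h1 : v ∈ W ⊔ W' := by rw [h.sup_eq_top]; trivial
    exact Submodule.mem_sup.1 h1
  have huniq : ∀ x ∈ W, ∀ y ∈ W', ∀ x' ∈ W, ∀ y' ∈ W', x + y = x' + y' → x = x' := by
    intro x hx y hy x' hx' y' hy' hxy
    have h1 : x - x' = y' - y := by
      rw [sub_eq_sub_iff_add_eq_add, hxy, add_comm]
    have h2 : x - x' ∈ W ⊓ W' := ⟨W.sub_mem hx hx', h1 ▸ W'.sub_mem hy' hy⟩
    rw [h.inf_eq_bot, Submodule.mem_bot] at h2
    exact sub_eq_zero.1 h2
  choose f hf g hg hfg using hex
  let e : End F V :=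
    { toFun := f
      map_add' := by
        intro u v
        refine huniq _ (hf _) (g (u + v)) (hg _) _ (W.add_mem (hf _) (hf _)) (g u + g v)
          (W'.add_mem (hg u) (hg v)) ?_
        rw [hfg]
        calc u + v = (f u + g u) + (f v + g v) := by rw [hfg, hfg]
          _ = _ := by abel
      map_smul' := by
        intro c v
        refine huniq _ (hf _) (g (c • v)) (hg _) _ (W.smul_mem _ (hf _)) (c • g v)
          (W'.smul_mem c (hg v)) ?_
        rw [hfg, RingHom.id_apply, ← smul_add, hfg] }
  have he : ∀ v, e v = f v := fun v => rfl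
  have h0 : ∀ x ∈ W, ∀ y ∈ W', e (x + y) = x := by
    intro x hx y hy
    rw [he]
    exact huniq _ (hf _) (g (x + y)) (hg _) _ hx _ hy (hfg _)
  refine ⟨e, fun v => hf v, fun w hw => ?_, fun w hw => ?_, fun a ha => ?_⟩
  · have := h0 w hw 0 W'.zero_mem
    rwa [add_zero] at this
  · have := h0 0 W.zero_mem w hw
    rwa [zero_add] at this
  · ext v
    rw [End.mul_apply, End.mul_apply]
    conv_rhs => rw [← hfg v, map_add, h0 _ (hW a ha _ (hf v)) _ (hW' a ha _ (hg v))]
    rw [he]

variable [FiniteDimensional F V]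

theorem trace_proj {W : Submodule F V} {e : End F V} (h1 : ∀ v, e v ∈ W)
    (h2 : ∀ w ∈ W, e w = w) : LinearMap.trace F V e = (finrank F W : F) :=
  LinearMap.IsProj.trace ⟨h1, h2⟩

variable [CharZero F]

/-- the trace form is nondegenerate on the commutant -/
theorem exists_mate {N : Set (End F V)} (hN : SemiS N) {c : End F V} (hc : ∀ a ∈ N, a * c = c * a)
    (hc0 : c ≠ 0) : ∃ c' : End F V, (∀ a ∈ N, a * c' = c' * a) ∧
      LinearMap.trace F V (c * c') ≠ 0 := by
  have hker : Stab N (LinearMap.ker c) := by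
    intro a ha w hw
    rw [LinearMap.mem_ker] at hw ⊢
    rw [← End.mul_apply, ← hc a ha, End.mul_apply, hw, map_zero]
  have hran : Stab N (LinearMap.range c) := by
    rintro a ha _ ⟨v, rfl⟩
    exact ⟨a v, by rw [← End.mul_apply, ← hc a ha, End.mul_apply]⟩
  obtain ⟨K, hK, hKs⟩ := hN _ hker
  obtain ⟨W', hW', hWs⟩ := hN _ hran
  obtain ⟨e, he1, he2, -, he4⟩ := exists_proj N hW' hran hWs
  have hinj : ∀ x ∈ K, ∀ y ∈ K, c x = c y → x = y := by
    intro x hx y hy hxy
    have h1 : x - y ∈ LinearMap.ker c ⊓ K :=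
      ⟨LinearMap.mem_ker.2 (by rw [map_sub, hxy, sub_self]), K.sub_mem hx hy⟩
    rw [hK.inf_eq_bot, Submodule.mem_bot] at h1
    exact sub_eq_zero.1 h1
  have hsurj : ∀ v, ∃ x ∈ K, c x = e v := by
    intro v
    obtain ⟨u, hu⟩ := he1 v
    have h1 : u ∈ LinearMap.ker c ⊔ K := by rw [hK.sup_eq_top]; trivial
    obtain ⟨x, hx, y, hy, rfl⟩ := Submodule.mem_sup.1 h1
    refine ⟨y, hy, ?_⟩
    rw [← hu, map_add, LinearMap.mem_ker.1 hx, zero_add]
  choose f hf hfe using hsurj
  let c' : End F V :=
    { toFun := f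
      map_add' := by
        intro u v
        exact hinj _ (hf _) _ (K.add_mem (hf _) (hf _)) (by rw [hfe, map_add, map_add, hfe, hfe])
      map_smul' := by
        intro r v
        exact hinj _ (hf _) _ (K.smul_mem _ (hf _)) (by
          rw [hfe, map_smul, RingHom.id_apply, map_smul, hfe]) }
  have hc' : ∀ v, c' v = f v := fun v => rfl
  refine ⟨c', fun a ha => ?_, ?_⟩
  · ext v
    rw [End.mul_apply, End.mul_apply]
    refine hinj _ (hKs a ha _ (hf v)) _ (hf _) ?_
    rw [hc', hfe, ← End.mul_apply, ← hc a ha, End.mul_apply, hfe, ← End.mul_apply, he4 a ha,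
      End.mul_apply]
  · have h1 : c * c' = e := by
      ext v
      rw [End.mul_apply, hc', hfe]
    rw [h1, trace_proj he1 he2]
    rw [Nat.cast_ne_zero]
    intro h0
    rw [Submodule.finrank_eq_zero, LinearMap.range_eq_bot] at h0
    exact hc0 h0

/-- uniqueness of the projection to the commutant -/
theorem comm_unique {N : Set (End F V)} (hN : SemiS N) {q q' : End F V}
    (hq : ∀ a ∈ N, a * q = q * a) (hq' : ∀ a ∈ N, a * q' = q' * a)
    (h : ∀ c : End F V, (∀ a ∈ N, a * c = c * a) →
      LinearMap.trace F V (q * c) = LinearMap.trace F V (q' * c)) : q = q' := by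
  by_contra hne
  have h1 : ∀ a ∈ N, a * (q - q') = (q - q') * a := by
    intro a ha
    rw [mul_sub, sub_mul, hq a ha, hq' a ha]
  obtain ⟨c, hc, hc'⟩ := exists_mate hN h1 (sub_ne_zero.2 hne)
  apply hc'
  rw [sub_mul, map_sub, h c hc, sub_self]

/-- existence of the projection to the commutant -/
theorem comm_exists {N : Set (End F V)} (hN : SemiS N) (p : End F V) :
    ∃ q : End F V, (∀ a ∈ N, a * q = q * a) ∧ ∀ c : End F V, (∀ a ∈ N, a * c = c * a) →
      LinearMap.trace F V (q * c) = LinearMap.trace F V (p * c) := by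
  let C : Submodule F (End F V) := Subalgebra.toSubmodule (Subalgebra.centralizer F N)
  have hmem : ∀ c : End F V, c ∈ C ↔ ∀ a ∈ N, a * c = c * a := by
    intro c
    rw [Subalgebra.mem_toSubmodule, Subalgebra.mem_centralizer_iff]
  let B : End F V →ₗ[F] (C →ₗ[F] F) :=
    LinearMap.mk₂ F (fun q (c : C) => LinearMap.trace F V (q * (c : End F V)))
      (fun q q' c => by rw [add_mul, map_add])
      (fun r q c => by rw [smul_mul_assoc, map_smul])
      (fun q c c' => by rw [Submodule.coe_add, mul_add, map_add])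
      (fun r q c => by rw [Submodule.coe_smul, mul_smul_comm, map_smul])
  have hB : ∀ q (c : C), B q c = LinearMap.trace F V (q * (c : End F V)) := fun q c => rfl
  have hinj : Function.Injective (B.comp C.subtype) := by
    rw [← LinearMap.ker_eq_bot, LinearMap.ker_eq_bot']
    intro q hq
    apply Subtype.ext
    refine comm_unique hN ((hmem _).1 q.2) (fun a _ => by
      rw [Submodule.coe_zero, mul_zero, zero_mul]) ?_
    intro c hc
    have h1 := LinearMap.congr_fun hq ⟨c, (hmem c).2 hc⟩
    rw [LinearMap.comp_apply, Submodule.subtype_apply, hB, LinearMap.zero_apply] at h1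
    rw [h1, Submodule.coe_zero, zero_mul, map_zero]
  have hsurj : Function.Surjective (B.comp C.subtype) :=
    (LinearMap.injective_iff_surjective_of_finrank_eq_finrank
      (Subspace.dual_finrank_eq (K := F) (V := C)).symm).1 hinj
  obtain ⟨q, hq⟩ := hsurj (B p)
  refine ⟨q, (hmem _).1 q.2, fun c hc => ?_⟩
  have h1 := LinearMap.congr_fun hq ⟨c, (hmem c).2 hc⟩
  rwa [LinearMap.comp_apply, Submodule.subtype_apply, hB, hB] at h1

/-- **The conditional expectation onto the commutant.** -/
theorem exists_common {N D : Set (End F V)} (hN : SemiS N) (hD : SemiS D)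
    (hDN : ∀ d ∈ D, ∃ d' : End F V, d * d' = 1 ∧ d' * d = 1 ∧
      ∀ a ∈ N, d * a * d' ∈ N ∧ d' * a * d ∈ N)
    {W : Submodule F V} (hWN : Stab N W) (hWD : Stab D W) :
    ∃ q : End F V, (∀ v, q v ∈ W) ∧ (∀ w ∈ W, q w = w) ∧ (∀ a ∈ N, a * q = q * a) ∧
      ∀ d ∈ D, d * q = q * d := by
  obtain ⟨W₁, hc1, hs1⟩ := hN W hWN
  obtain ⟨W₂, hc2, hs2⟩ := hD W hWD
  obtain ⟨e, he1, he2, -, he4⟩ := exists_proj N hc1 hWN hs1
  obtain ⟨p, hp1, hp2, -, hp4⟩ := exists_proj D hc2 hWD hs2
  obtain ⟨q, hq1, hq2⟩ := comm_exists hN p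
  have hep : e * p = p := by
    ext v
    rw [End.mul_apply, he2 _ (hp1 v)]
  have hpe : p * e = e := by
    ext v
    rw [End.mul_apply, hp2 _ (he1 v)]
  have heq : e * q = q := by
    refine comm_unique hN ?_ hq1 ?_
    · intro a ha
      rw [← mul_assoc, he4 a ha, mul_assoc, hq1 a ha, mul_assoc]
    · intro c hc
      have h1 : ∀ a ∈ N, a * (c * e) = (c * e) * a := by
        intro a ha
        rw [← mul_assoc, hc a ha, mul_assoc, he4 a ha, mul_assoc]
      rw [mul_assoc, LinearMap.trace_mul_comm, mul_assoc, hq2 _ h1, ← mul_assoc,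
        LinearMap.trace_mul_comm, ← mul_assoc, hep, hq2 c hc]
  have hqe : q * e = e := by
    refine comm_unique hN ?_ he4 ?_
    · intro a ha
      rw [← mul_assoc, hq1 a ha, mul_assoc, he4 a ha, mul_assoc]
    · intro c hc
      have h1 : ∀ a ∈ N, a * (e * c) = (e * c) * a := by
        intro a ha
        rw [← mul_assoc, he4 a ha, mul_assoc, hc a ha, mul_assoc]
      rw [mul_assoc, hq2 _ h1, ← mul_assoc, hpe]
  refine ⟨q, fun v => ?_, fun w hw => ?_, hq1, fun d hd => ?_⟩
  · rw [← heq, End.mul_apply]
    exact he1 _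
  · have h1 := LinearMap.congr_fun hqe w
    rwa [End.mul_apply, he2 w hw] at h1
  · obtain ⟨d', hd1, hd2, hd3⟩ := hDN d hd
    have h1 : d * q * d' = q := by
      refine comm_unique hN ?_ hq1 ?_
      · intro a ha
        have h2 := hq1 _ (hd3 a ha).2
        calc a * (d * q * d') = (d * d') * a * (d * q * d') := by rw [hd1, one_mul]
          _ = d * ((d' * a * d) * q) * d' := by simp only [mul_assoc]
          _ = d * (q * (d' * a * d)) * d' := by rw [h2]
          _ = (d * q * d') * a * (d * d') := by simp only [mul_assoc]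
          _ = (d * q * d') * a := by rw [hd1, mul_one]
      · intro c hc
        have h2 : ∀ a ∈ N, a * (d' * c * d) = (d' * c * d) * a := by
          intro a ha
          have h3 := hc _ (hd3 a ha).1
          calc a * (d' * c * d) = (d' * d) * a * (d' * c * d) := by rw [hd2, one_mul]
            _ = d' * ((d * a * d') * c) * d := by simp only [mul_assoc]
            _ = d' * (c * (d * a * d')) * d := by rw [h3]
            _ = (d' * c * d) * a * (d' * d) := by simp only [mul_assoc]
            _ = (d' * c * d) * a := by rw [hd2, mul_one]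
        have h4 : LinearMap.trace F V (d * q * d' * c) =
            LinearMap.trace F V (q * (d' * c * d)) := by
          rw [mul_assoc, mul_assoc, LinearMap.trace_mul_comm]
          simp only [mul_assoc]
        have h5 : LinearMap.trace F V (p * (d' * c * d)) = LinearMap.trace F V (p * c) := by
          have h6 : p * (d' * c * d) = (p * (d' * c)) * d := by simp only [mul_assoc]
          rw [h6, LinearMap.trace_mul_comm]
          have h7 : d * (p * (d' * c)) = p * c := by
            rw [← mul_assoc, hp4 d hd, mul_assoc, ← mul_assoc d, hd1, one_mul]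
          rw [h7]
        rw [h4, hq2 _ h2, h5, ← hq2 c hc]
    calc d * q = d * q * (d' * d) := by rw [hd2, mul_one]
      _ = (d * q * d') * d := by simp only [mul_assoc]
      _ = q * d := by rw [h1]

end Pool.Agent.Q294.SS
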