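import Pool.Agent.Q294.SS.Cond

/-!
# Semisimplicity from a normal subgroup and a second subgroup: groups
-/

set_option autoImplicit false

namespace Pool.Agent.Q294.SS

open Module

variable {F V : Type*} [Field F] [AddCommGroup V] [Module F V]

/-- the restriction of the representation `ρ` to the subgroup `H` is semisimple: every subspace that
is stable under `H` has a complement that is stable under `H` -/
def SemiOn {Γ : Type*} [Group Γ] (ρ : Γ →* End F V) (H : Subgroup Γ) : Prop :=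
  ∀ W : Submodule F V, (∀ g ∈ H, ∀ w ∈ W, ρ g w ∈ W) →
    ∃ W' : Submodule F V, IsCompl W W' ∧ ∀ g ∈ H, ∀ w ∈ W', ρ g w ∈ W'

variable {Γ : Type*} [Group Γ] (ρ : Γ →* End F V)

theorem semiS_of {H : Subgroup Γ} (h : SemiOn ρ H) : SemiS (ρ '' (H : Set Γ)) := by
  intro W hW
  obtain ⟨W', h1, h2⟩ := h W (fun g hg w hw => hW _ ⟨g, hg, rfl⟩ w hw)
  refine ⟨W', h1, ?_⟩
  rintro _ ⟨g, hg, rfl⟩ w hw
  exact h2 g hg w hw

theorem mul_inv (g : Γ) : ρ g * ρ g⁻¹ = 1 := by rw [← map_mul, mul_inv_cancel, map_one]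

theorem inv_mul (g : Γ) : ρ g⁻¹ * ρ g = 1 := by rw [← map_mul, inv_mul_cancel, map_one]

/-- a stable subspace which is the range of a projection commuting with `H` has an `H`-stable
complement -/
theorem compl_of {W : Submodule F V} {q : End F V} (h1 : ∀ v, q v ∈ W) (h2 : ∀ w ∈ W, q w = w) :
    IsCompl W (LinearMap.ker q) := by
  constructor
  · rw [Submodule.disjoint_def]
    intro x hx hx'
    rw [LinearMap.mem_ker, h2 x hx] at hx'
    exact hx'
  · rw [codisjoint_iff, eq_top_iff]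
    intro v _
    rw [Submodule.mem_sup]
    refine ⟨q v, h1 v, v - q v, ?_, by abel⟩
    rw [LinearMap.mem_ker, map_sub, h2 _ (h1 v), sub_self]

variable [CharZero F]

/-- averaging a projection over the cosets of a subgroup of finite index -/
theorem average {H : Subgroup Γ} [H.FiniteIndex] {W : Submodule F V}
    (hW : ∀ g, ∀ w ∈ W, ρ g w ∈ W) {q : End F V} (h1 : ∀ v, q v ∈ W) (h2 : ∀ w ∈ W, q w = w)
    (h3 : ∀ h ∈ H, ρ h * q = q * ρ h) :
    ∃ q' : End F V, (∀ v, q' v ∈ W) ∧ (∀ w ∈ W, q' w = w) ∧ ∀ g, ρ g * q' = q' * ρ g := by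
  classical
  have : Fintype (Γ ⧸ H) := Fintype.ofFinite _
  let f : Γ → End F V := fun g => ρ g * q * ρ g⁻¹
  have hf : ∀ g, ∀ h ∈ H, f (g * h) = f g := by
    intro g h hh
    show ρ (g * h) * q * ρ (g * h)⁻¹ = ρ g * q * ρ g⁻¹
    rw [map_mul, mul_inv_rev, map_mul]
    calc ρ g * ρ h * q * (ρ h⁻¹ * ρ g⁻¹) = ρ g * (ρ h * q) * ρ h⁻¹ * ρ g⁻¹ := by
          simp only [mul_assoc]
      _ = ρ g * q * (ρ h * ρ h⁻¹) * ρ g⁻¹ := by rw [h3 h hh]; simp only [mul_assoc]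
      _ = ρ g * q * ρ g⁻¹ := by rw [mul_inv, mul_one]
  have hfW : ∀ g v, f g v ∈ W := fun g v => hW _ _ (h1 _)
  have hfw : ∀ g, ∀ w ∈ W, f g w = w := by
    intro g w hw
    show ρ g (q (ρ g⁻¹ w)) = w
    rw [h2 _ (hW _ w hw), ← End.mul_apply, mul_inv, End.one_apply]
  have hconj : ∀ g x, ρ g * f x = f (g * x) * ρ g := by
    intro g x
    show ρ g * (ρ x * q * ρ x⁻¹) = ρ (g * x) * q * ρ (g * x)⁻¹ * ρ g
    rw [map_mul, mul_inv_rev, map_mul]
    calc ρ g * (ρ x * q * ρ x⁻¹) = ρ g * ρ x * q * ρ x⁻¹ * 1 := by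
          rw [mul_one]; simp only [mul_assoc]
      _ = ρ g * ρ x * q * (ρ x⁻¹ * ρ g⁻¹) * ρ g := by
          rw [← inv_mul ρ g]; simp only [mul_assoc]
  have hm : (Fintype.card (Γ ⧸ H) : F) ≠ 0 := by
    rw [Nat.cast_ne_zero]
    exact Fintype.card_ne_zero
  let S : End F V := ∑ x : Γ ⧸ H, f x.out
  refine ⟨(Fintype.card (Γ ⧸ H) : F)⁻¹ • S, fun v => ?_, fun w hw => ?_, fun g => ?_⟩
  · rw [LinearMap.smul_apply, LinearMap.sum_apply]
    exact W.smul_mem _ (W.sum_mem fun x _ => hfW _ _)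
  · rw [LinearMap.smul_apply, LinearMap.sum_apply, Finset.sum_congr rfl fun x _ => hfw _ w hw,
      Finset.sum_const, Finset.card_univ, ← Nat.cast_smul_eq_nsmul F, smul_smul,
      inv_mul_cancel₀ hm, one_smul]
  · rw [mul_smul_comm, smul_mul_assoc]
    congr 1
    show ρ g * (∑ x : Γ ⧸ H, f x.out) = (∑ x : Γ ⧸ H, f x.out) * ρ g
    rw [Finset.mul_sum, Finset.sum_mul]
    have h4 : ∀ x : Γ ⧸ H, ρ g * f x.out = f (g • x).out * ρ g := by
      intro x
      rw [hconj]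
      congr 1
      have h5 : ((g * x.out : Γ) : Γ ⧸ H) = g • x := MulAction.Quotient.mk_smul_out H g x
      obtain ⟨h, hh⟩ := QuotientGroup.mk_out_eq_mul H (g * x.out)
      rw [h5] at hh
      rw [hh, hf _ _ h.2]
    rw [Finset.sum_congr rfl fun x _ => h4 x]
    exact Equiv.sum_comp (MulAction.toPerm g : Equiv.Perm (Γ ⧸ H)) (fun x => f x.out * ρ g)

variable [FiniteDimensional F V]

/-- **Semisimplicity from a normal subgroup `N` and a subgroup `D` with `D N` of finite index.** -/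
theorem semi_of_normal {N D : Subgroup Γ} [N.Normal] (hfi : (D ⊔ N).FiniteIndex)
    (hN : SemiOn ρ N) (hD : SemiOn ρ D) : SemiOn ρ (⊤ : Subgroup Γ) := by
  intro W hW
  have hW' : ∀ g, ∀ w ∈ W, ρ g w ∈ W := fun g w hw => hW g trivial w hw
  obtain ⟨q, hq1, hq2, hq3, hq4⟩ := exists_common (semiS_of ρ hN) (semiS_of ρ hD)
    (by
      rintro _ ⟨d, hd, rfl⟩
      refine ⟨ρ d⁻¹, mul_inv ρ d, inv_mul ρ d, ?_⟩
      rintro _ ⟨n, hn, rfl⟩
      refine ⟨⟨d * n * d⁻¹, Subgroup.Normal.conj_mem inferInstance n hn d, ?_⟩,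
        ⟨d⁻¹ * n * d, ?_, ?_⟩⟩
      · rw [map_mul, map_mul]
      · have := Subgroup.Normal.conj_mem (inferInstance : N.Normal) n hn d⁻¹
        rwa [inv_inv] at this
      · rw [map_mul, map_mul])
    (W := W) (by rintro _ ⟨n, hn, rfl⟩ w hw; exact hW' n w hw)
    (by rintro _ ⟨n, hn, rfl⟩ w hw; exact hW' n w hw)
  have hq5 : ∀ h ∈ D ⊔ N, ρ h * q = q * ρ h := by
    intro h hh
    refine Subgroup.closure_induction (k := (D : Set Γ) ∪ N) (p := fun h _ => ρ h * q = q * ρ h)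
      ?_ ?_ ?_ ?_ (by rwa [Subgroup.closure_union, Subgroup.closure_eq, Subgroup.closure_eq])
    · rintro x (hx | hx)
      · exact hq4 _ ⟨x, hx, rfl⟩
      · exact hq3 _ ⟨x, hx, rfl⟩
    · rw [map_one, one_mul, mul_one]
    · intro x y _ _ hx hy
      rw [map_mul, mul_assoc, hy, ← mul_assoc, hx, mul_assoc]
    · intro x _ hx
      calc ρ x⁻¹ * q = ρ x⁻¹ * q * (ρ x * ρ x⁻¹) := by rw [mul_inv, mul_one]
        _ = ρ x⁻¹ * (q * ρ x) * ρ x⁻¹ := by simp only [mul_assoc]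
        _ = (ρ x⁻¹ * ρ x) * q * ρ x⁻¹ := by rw [← hx]; simp only [mul_assoc]
        _ = q * ρ x⁻¹ := by rw [inv_mul, one_mul]
  have := hfi
  obtain ⟨q', h1, h2, h3⟩ := average ρ hW' hq1 hq2 hq5
  refine ⟨LinearMap.ker q', compl_of h1 h2, fun g _ w hw => ?_⟩
  rw [LinearMap.mem_ker] at hw ⊢
  rw [← End.mul_apply, ← h3 g, End.mul_apply, hw, map_zero]

omit [CharZero F] [FiniteDimensional F V] in
/-- If the endomorphisms of `V` commuting with the normal subgroup `N` contain no nonzero element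
with square zero and `N` acts semisimply, then `Γ` acts semisimply. -/
theorem semi_of_reduced {N : Subgroup Γ} [N.Normal] (hN : SemiOn ρ N)
    (hred : ∀ x : End F V, (∀ n ∈ N, ρ n * x = x * ρ n) → x * x = 0 → x = 0) :
    SemiOn ρ (⊤ : Subgroup Γ) := by
  intro W hW
  have hW' : ∀ g, ∀ w ∈ W, ρ g w ∈ W := fun g w hw => hW g trivial w hw
  obtain ⟨W₁, hc1, hs1⟩ := semiS_of ρ hN W (by rintro _ ⟨n, hn, rfl⟩ w hw; exact hW' n w hw)
  obtain ⟨e, he1, he2, he3, he4⟩ := exists_proj _ hc1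
    (by rintro _ ⟨n, hn, rfl⟩ w hw; exact hW' n w hw) hs1
  have hkey : ∀ g, ρ g * e * ρ g⁻¹ = e := by
    intro g
    have h1 : ∀ v, (ρ g * e * ρ g⁻¹) v ∈ W := fun v => hW' _ _ (he1 _)
    have h2 : ∀ w ∈ W, (ρ g * e * ρ g⁻¹) w = w := by
      intro w hw
      show ρ g (e (ρ g⁻¹ w)) = w
      rw [he2 _ (hW' _ w hw), ← End.mul_apply, mul_inv, End.one_apply]
    have h3 : ∀ n ∈ N, ρ n * (ρ g * e * ρ g⁻¹) = (ρ g * e * ρ g⁻¹) * ρ n := by
      intro n hn
      have h4 : g⁻¹ * n * g ∈ N := by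
        have := Subgroup.Normal.conj_mem (inferInstance : N.Normal) n hn g⁻¹
        rwa [inv_inv] at this
      have h5 := he4 _ ⟨g⁻¹ * n * g, h4, rfl⟩
      have h6 : ρ n * ρ g = ρ g * ρ (g⁻¹ * n * g) := by
        rw [← map_mul, ← map_mul]
        congr 1
        group
      have h7 : ρ (g⁻¹ * n * g) * ρ g⁻¹ = ρ g⁻¹ * ρ n := by
        rw [← map_mul, ← map_mul]
        congr 1
        group
      calc ρ n * (ρ g * e * ρ g⁻¹) = (ρ n * ρ g) * e * ρ g⁻¹ := by simp only [mul_assoc]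
        _ = ρ g * (ρ (g⁻¹ * n * g) * e) * ρ g⁻¹ := by rw [h6]; simp only [mul_assoc]
        _ = ρ g * e * (ρ (g⁻¹ * n * g) * ρ g⁻¹) := by rw [h5]; simp only [mul_assoc]
        _ = _ := by rw [h7]; simp only [mul_assoc]
    have h4 := hred (ρ g * e * ρ g⁻¹ - e) (fun n hn => by
      rw [mul_sub, sub_mul, h3 n hn, he4 _ ⟨n, hn, rfl⟩]) (by
      ext v
      have e1 : ∀ u ∈ W, (ρ g * e * ρ g⁻¹ - e) u = 0 := by
        intro u hu
        rw [LinearMap.sub_apply, h2 u hu, he2 u hu, sub_self]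
      rw [End.mul_apply]
      exact e1 _ (by rw [LinearMap.sub_apply]; exact W.sub_mem (h1 v) (he1 v)))
    exact sub_eq_zero.1 h4
  refine ⟨LinearMap.ker e, compl_of he1 he2, fun g _ w hw => ?_⟩
  rw [LinearMap.mem_ker] at hw ⊢
  have h1 : e * ρ g = ρ g * e := by
    calc e * ρ g = (ρ g * e * ρ g⁻¹) * ρ g := by rw [hkey]
      _ = ρ g * e * (ρ g⁻¹ * ρ g) := by simp only [mul_assoc]
      _ = ρ g * e := by rw [inv_mul, mul_one]
  rw [← End.mul_apply, h1, End.mul_apply, hw, map_zero]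

end Pool.Agent.Q294.SS
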