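import Pool.Agent.Q294.SS.Grp

/-!
# Subgroups with the same stable subspaces
-/

set_option autoImplicit false

namespace Pool.Agent.Q294.SS

open Module

variable {K V : Type*} [NontriviallyNormedField K] [CompleteSpace K] [AddCommGroup V] [Module K V]
  [FiniteDimensional K V]

/-- **Subgroups close to the full group have the same stable subspaces.** -/
theorem exists_open {Γ : Type*} [Group Γ] [TopologicalSpace Γ] [IsTopologicalGroup Γ]
    [CompactSpace Γ] [TotallyDisconnectedSpace Γ] (ρ : Γ →* End K V)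
    (hcont : ∀ (φ : V →ₗ[K] K) (x : V), Continuous fun g => φ (ρ g x)) :
    ∃ U : Subgroup Γ, U.Normal ∧ IsOpen (U : Set Γ) ∧ ∀ D : Subgroup Γ, D ⊔ U = ⊤ →
      ∀ W : Submodule K V, (∀ d ∈ D, ∀ w ∈ W, ρ d w ∈ W) → ∀ g, ∀ w ∈ W, ρ g w ∈ W := by
  classical
  obtain ⟨b, hb1, hb2, hb3⟩ := exists_linearIndependent K (Set.range ρ)
  have hfin : Finite b := hb3.finite
  have hft : Fintype b := Fintype.ofFinite b
  have hg : ∀ x : b, ∃ g : Γ, ρ g = x := fun x => hb1 x.2
  choose g hg using hg
  let B := Module.finBasis K V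
  let n := finrank K V
  let M : End K V →ₗ[K] (Fin n → Fin n → K) :=
    { toFun := fun a i j => B.coord i (a (B j))
      map_add' := by intro a a'; ext i j; simp
      map_smul' := by intro r a; ext i j; simp }
  have hM : ∀ a i j, M a i j = B.coord i (a (B j)) := fun _ _ _ => rfl
  have hMinj : LinearMap.ker M = ⊥ := by
    rw [LinearMap.ker_eq_bot']
    intro a ha
    refine B.ext fun j => ?_
    rw [LinearMap.zero_apply]
    refine B.ext_elem fun i => ?_
    have h1 := congrFun (congrFun ha i) j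
    rw [hM, Pi.zero_apply, Pi.zero_apply, Basis.coord_apply] at h1
    rw [h1, map_zero, Finsupp.zero_apply]
  let Φ : (b → Γ) → (b → Fin n → Fin n → K) := fun u x => M (ρ (g x * u x))
  have hΦ : Continuous Φ := by
    refine continuous_pi fun x => continuous_pi fun i => continuous_pi fun j => ?_
    exact (hcont (B.coord i) (B j)).comp (continuous_const.mul (continuous_apply x))
  have hΩ : IsOpen {f : b → (Fin n → Fin n → K) | LinearIndependent K f} :=
    isOpen_setOfPred_linearIndependent
  have hpre := hΩ.preimage hΦ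
  have h1 : (1 : b → Γ) ∈ Φ ⁻¹' {f | LinearIndependent K f} := by
    show LinearIndependent K (Φ 1)
    have h2 : Φ 1 = M ∘ (Subtype.val : b → End K V) := by
      ext x : 1
      show M (ρ (g x * 1)) = M x
      rw [mul_one, hg]
    rw [h2]
    exact hb3.map' M hMinj
  obtain ⟨O, hO1, hO2⟩ := isOpen_pi_iff'.1 hpre 1 h1
  have hOo : IsOpen (⋂ x, O x) := isOpen_iInter_of_finite fun x => (hO1 x).1
  have hO1' : (1 : Γ) ∈ ⋂ x, O x := Set.mem_iInter.2 fun x => (hO1 x).2
  obtain ⟨U, hU⟩ := ProfiniteGrp.exist_openNormalSubgroup_sub_open_nhds_of_one hOo hO1'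
  refine ⟨U.toSubgroup, inferInstance, U.isOpen', ?_⟩
  intro D hD W hW g₀
  have hd : ∀ x : b, ∃ u ∈ U.toSubgroup, g x * u ∈ D := by
    intro x
    have h2 : g x ∈ D ⊔ U.toSubgroup := by rw [hD]; trivial
    have h3 : g x ∈ ((D ⊔ U.toSubgroup : Subgroup Γ) : Set Γ) := h2
    rw [Subgroup.mul_normal] at h3
    obtain ⟨d, hd, u, hu, hdu⟩ := h3
    refine ⟨u⁻¹, U.toSubgroup.inv_mem hu, ?_⟩
    have h4 : g x * u⁻¹ = d := by
      rw [← hdu]
      show d * u * u⁻¹ = d
      rw [mul_inv_cancel_right]
    rw [h4]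
    exact hd
  choose u hu hud using hd
  have h2 : LinearIndependent K (Φ u) := by
    have h3 : u ∈ Set.univ.pi O := by
      intro x _
      exact Set.mem_iInter.1 (hU (hu x)) x
    exact hO2 h3
  have h3 : LinearIndependent K (fun x => ρ (g x * u x)) := by
    have h4 : Φ u = M ∘ fun x => ρ (g x * u x) := rfl
    rw [h4] at h2
    exact h2.of_comp M
  have h4 : Submodule.span K (Set.range fun x => ρ (g x * u x)) =
      Submodule.span K (Set.range ρ) := by
    refine Submodule.eq_of_le_of_finrank_eq ?_ ?_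
    · rw [Submodule.span_le]
      rintro _ ⟨x, rfl⟩
      exact Submodule.subset_span ⟨_, rfl⟩
    · rw [finrank_span_eq_card h3, ← hb2]
      have h5 := finrank_span_eq_card hb3
      rw [Subtype.range_coe] at h5
      rw [h5]
  let St : Submodule K (End K V) :=
    { carrier := {a | ∀ w ∈ W, a w ∈ W}
      add_mem' := fun ha hb w hw => W.add_mem (ha w hw) (hb w hw)
      zero_mem' := fun w _ => W.zero_mem
      smul_mem' := fun c a ha w hw => W.smul_mem c (ha w hw) }
  have h6 : Submodule.span K (Set.range fun x => ρ (g x * u x)) ≤ St := by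
    rw [Submodule.span_le]
    rintro _ ⟨x, rfl⟩ w hw
    exact hW _ (hud x) w hw
  rw [h4] at h6
  exact h6 (Submodule.subset_span ⟨g₀, rfl⟩)

end Pool.Agent.Q294.SS
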